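import Pool.Agent.LibGD33.Defs

open MeasureTheory Set Filter Topology
open scoped ContDiff

namespace GD

open BGS BR

variable {Γ : Type} [Group Γ] [MulAction Γ Pl] {D : Set Pl} {m : Pl → Co}

private theorem G4_mono {g g' : ℝ → ℝ} (h : ∀ t, HasDerivAt g (g' t) t) (hg : ∀ t, 0 ≤ t → 0 ≤ g' t)
    {t : ℝ} (ht : 0 ≤ t) : g 0 ≤ g t := by
  have hm : MonotoneOn g (Ici 0) := by
    refine monotoneOn_of_deriv_nonneg (convex_Ici 0) (fun x _ => (h x).continuousAt.continuousWithinAt)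
      (fun x _ => (h x).differentiableAt.differentiableWithinAt) fun x hx => ?_
    rw [interior_Ici] at hx
    rw [(h x).deriv]
    exact hg x (le_of_lt hx)
  exact hm self_mem_Ici ht ht

theorem cosh_le {f f' q : ℝ → ℝ} {a : ℝ} (ha : 0 < a) (h1 : ∀ t, HasDerivAt f (f' t) t)
    (h2 : ∀ t, HasDerivAt f' (q t * f t) t) (hq : ∀ t, a ^ 2 ≤ q t) (h0 : f 0 = 1)
    (h0' : f' 0 = 0) (hf : ∀ t, 0 ≤ t → 0 ≤ f t) {t : ℝ} (ht : 0 ≤ t) :
    Real.cosh (a * t) ≤ f t := by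
  have hl : ∀ t : ℝ, HasDerivAt (fun t : ℝ => a * t) a t := fun t => by
    simpa using (hasDerivAt_id t).const_mul a
  have hc : ∀ t : ℝ, HasDerivAt (fun t : ℝ => Real.cosh (a * t)) (Real.sinh (a * t) * a) t :=
    fun t => (Real.hasDerivAt_cosh (a * t)).comp t (hl t)
  have hs : ∀ t : ℝ, HasDerivAt (fun t : ℝ => Real.sinh (a * t)) (Real.cosh (a * t) * a) t :=
    fun t => (Real.hasDerivAt_sinh (a * t)).comp t (hl t)
  have hW : ∀ t, HasDerivAt (fun t => f' t * Real.cosh (a * t) - f t * (a * Real.sinh (a * t)))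
      ((q t - a ^ 2) * f t * Real.cosh (a * t)) t := by
    intro t
    have e := ((h2 t).mul (hc t)).sub ((h1 t).mul ((hs t).const_mul a))
    exact e.congr_deriv (by ring)
  have hW0 : ∀ t, 0 ≤ t → 0 ≤ f' t * Real.cosh (a * t) - f t * (a * Real.sinh (a * t)) := by
    intro t ht
    have e := G4_mono hW (fun s hs' => mul_nonneg (mul_nonneg (by linarith [hq s]) (hf s hs'))
      (Real.cosh_pos _).le) ht
    simp only [mul_zero, Real.sinh_zero, h0', zero_mul, sub_zero] at e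
    exact e
  have hg : ∀ t, HasDerivAt (fun t => f t / Real.cosh (a * t))
      ((f' t * Real.cosh (a * t) - f t * (Real.sinh (a * t) * a)) / Real.cosh (a * t) ^ 2) t :=
    fun t => (h1 t).div (hc t) (Real.cosh_pos _).ne'
  have e := G4_mono hg (fun s hs' => by
    refine div_nonneg ?_ (sq_nonneg _)
    have := hW0 s hs'
    linarith [mul_comm a (Real.sinh (a * s))]) ht
  simp only [mul_zero, Real.cosh_zero, h0, div_one] at e
  rwa [le_div_iff₀ (Real.cosh_pos _), one_mul] at e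

theorem JA_cosh (hX : Surface Γ D) (hm : HM Γ m) {a : ℝ} (ha : 0 < a)
    (hk : ∀ z, curv m z ≤ -a ^ 2) {x u : Pl} (hu : eu u = 1) {t : ℝ} (ht : 0 ≤ t) :
    Real.cosh (a * t) ≤ JA m x u t := by
  obtain ⟨z1, z2, -, -⟩ := J_zero hX hm (x := x) hu
  exact cosh_le (q := fun t => -curv m (gfl m t (x, u)).1) ha (fun t => (JA_ode hX hm hu t).1)
    (fun t => (JA_ode hX hm hu t).2) (fun t => by linarith [hk (gfl m t (x, u)).1]) z1 z2
    (fun t ht => by linarith [(JB_ge hX hm (x := x) hu ht).2.2.1]) ht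

theorem JBd_cosh (hX : Surface Γ D) (hm : HM Γ m) {a : ℝ} (ha : 0 < a)
    (hk : ∀ z, curv m z ≤ -a ^ 2) {x u : Pl} (hu : eu u = 1) {t : ℝ} (ht : 0 ≤ t) :
    Real.cosh (a * t) ≤ deriv (JB m x u) t := by
  rw [← (J_rev hX hm hu t).2]
  refine JA_cosh hX hm ha hk ?_ ht
  have h1 : ∀ w : Pl, eu (-w) = eu w := fun w => by
    unfold eu
    simp
  rw [h1, gfl_eu hX hm]
  exact hu

theorem sinh_id (y : ℝ) : 2 * Real.cosh y - 2 = 4 * Real.sinh (y / 2) ^ 2 := by
  have h1 : Real.cosh y = Real.cosh (2 * (y / 2)) := by congr 1; ring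
  have h2 := Real.cosh_sq (y / 2)
  rw [h1, Real.cosh_two_mul, h2]
  ring

theorem trM_lb (hX : Surface Γ D) (hm : HM Γ m) {a : ℝ} (ha : 0 < a)
    (hk : ∀ z, curv m z ≤ -a ^ 2) {x u : Pl} (hu : eu u = 1) {t : ℝ} (ht : 0 ≤ t) :
    4 * Real.sinh (a * t / 2) ^ 2 ≤ trM m x u t - 2 := by
  rw [← sinh_id]
  unfold trM
  have h1 := JA_cosh hX hm ha hk (x := x) hu ht
  have h2 := JBd_cosh hX hm ha hk (x := x) hu ht
  linarith

end GD
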