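import Mathlib

/-! Row G5 (only Mathlib): traces of the powers of a hyperbolic matrix.
PLAN. Cayley-Hamilton for `2 × 2` matrices of determinant one: `M ^ 2 = (trace M) • M - 1` (by entries), so
`trace (M ^ (k + 2)) = trace M * trace (M ^ (k + 1)) - trace (M ^ k)`. `χ = arcosh (trace M / 2)` (`2 cosh χ = trace M`:
intermediate value theorem on `[0, ∞)`, or `χ = Real.arsinh √(t² - 1)`, `t = trace M / 2 ≥ 1`, with `Real.cosh_arsinh`). Induction on
`k` with two base cases (`trace 1 = 2`), `cosh ((k + 2) χ) + cosh (k χ) = 2 cosh χ cosh ((k + 1) χ)`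
(`Real.cosh_add`, `Real.cosh_sub`). -/

namespace GD

theorem trace_pow {M : Matrix (Fin 2) (Fin 2) ℝ} (hd : M.det = 1) (ht : 2 ≤ M.trace) :
    ∃ χ : ℝ, 0 ≤ χ ∧ ∀ k : ℕ, (M ^ k).trace = 2 * Real.cosh (k * χ) := by
  have hCH : M ^ 2 = M.trace • M - 1 := by
    rw [Matrix.det_fin_two] at hd
    ext i j
    rw [pow_two, Matrix.mul_apply, Fin.sum_univ_two, Matrix.sub_apply, Matrix.smul_apply,
      Matrix.trace_fin_two, smul_eq_mul]
    fin_cases i <;> fin_cases j <;> simp <;> linarith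
  have hrec : ∀ k : ℕ, (M ^ (k + 2)).trace = M.trace * (M ^ (k + 1)).trace - (M ^ k).trace := by
    intro k
    have h1 : M ^ (k + 2) = M.trace • M ^ (k + 1) - M ^ k := by
      rw [pow_add, hCH, mul_sub, mul_one, Matrix.mul_smul, pow_succ]
    rw [h1, Matrix.trace_sub, Matrix.trace_smul, smul_eq_mul]
  set t : ℝ := M.trace / 2 with htd
  have ht1 : 1 ≤ t := by rw [htd]; linarith
  have hcosh : Real.cosh (Real.arsinh (√(t ^ 2 - 1))) = t := by
    rw [Real.cosh_arsinh, Real.sq_sqrt (by nlinarith)]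
    have h2 : 1 + (t ^ 2 - 1) = t ^ 2 := by ring
    rw [h2, Real.sqrt_sq (by linarith)]
  refine ⟨Real.arsinh (√(t ^ 2 - 1)), Real.arsinh_nonneg_iff.2 (Real.sqrt_nonneg _), ?_⟩
  set χ : ℝ := Real.arsinh (√(t ^ 2 - 1)) with hχ
  have hT : M.trace = 2 * Real.cosh χ := by
    rw [hcosh, htd]
    ring
  have key : ∀ k : ℕ, (M ^ k).trace = 2 * Real.cosh (k * χ) ∧
      (M ^ (k + 1)).trace = 2 * Real.cosh ((k + 1 : ℕ) * χ) := by
    intro k
    induction k with
    | zero =>
      constructor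
      · rw [pow_zero, Matrix.trace_one]
        simp
      · rw [zero_add, pow_one, hT]
        simp
    | succ k ih =>
      refine ⟨ih.2, ?_⟩
      have h3 : k + 1 + 1 = k + 2 := rfl
      rw [h3, hrec, ih.1, ih.2, hT]
      have h4 : ((k + 2 : ℕ) : ℝ) * χ = ((k + 1 : ℕ) : ℝ) * χ + χ := by
        push_cast
        ring
      have h5 : (k : ℝ) * χ = ((k + 1 : ℕ) : ℝ) * χ - χ := by
        push_cast
        ring
      rw [h4, h5, Real.cosh_add, Real.cosh_sub]
      ring
  exact fun k => (key k).1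

end GD
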