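import Pool.Agent.LibGD33.G3
import Pool.Agent.LibGD33.G4
import Pool.Agent.LibGD33.G5
import Pool.Agent.LibBGM20.GD

/-! Row G7: the data of the group (helper33). -/

open MeasureTheory Set Filter Topology
open scoped ContDiff

namespace GD

open BGS BR

variable {Γ : Type} [Group Γ] [MulAction Γ Pl] {D : Set Pl} {m : Pl → Co}

theorem grpData (hX : Surface Γ D) (hO : Ori Γ) (hm : HM Γ m) {a : ℝ} (ha : 0 < a)
    (hk : ∀ z, curv m z ≤ -a ^ 2) : GH.GrpData (BGM.tl m) (trg m) a (Γ := Γ) := by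
  obtain ⟨k, h⟩ := gd_had hX hm
  refine BGM.GD_data hX (gd_iv hm) h ha (fun g γ => trg_conj hX hO hm g γ)
    (fun g => trg_inv hX hO hm g) (fun g hg => ?_) (fun g hg => ?_)
  · obtain ⟨x0, v0, hA⟩ := axis_exists hX hO hm hg
    rw [trg_eq hX hO hm hA]
    exact trM_lb hX hm ha hk hA.unit hA.pos.le
  · obtain ⟨x0, v0, hA⟩ := axis_exists hX hO hm hg
    have h2 : 2 ≤ (NN m x0 v0 (BGM.tl m g)).trace := by
      rw [NN_tr]
      have h3 := trM_lb hX hm ha hk (x := x0) hA.unit hA.pos.le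
      have h4 : 0 ≤ 4 * Real.sinh (a * BGM.tl m g / 2) ^ 2 := by positivity
      linarith
    obtain ⟨χ, hχ, h5⟩ := trace_pow (NN_det hX hm hA.unit _) h2
    refine ⟨χ, hχ, fun k hk => ?_⟩
    rw [trg_eq hX hO hm (axis_pow hX hO hm hA hk), ← NN_tr, NN_pow hX hO hm hA, h5]

/-- Data of the closed geodesic of `g` and of its root. -/
theorem cls_of (hX : Surface Γ D) (hO : Ori Γ) (hm : HM Γ m) {g : Γ} (hg : g ≠ 1) :
    ∃ (g0 : Γ) (n : ℕ) (x0 v0 : Pl), 0 < n ∧ g0 ^ n = g ∧ BGM.Prim g0 ∧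
      Cls m g g0 x0 v0 (BGM.tl m g) (BGM.tl m g0) ∧ trg m g = trM m x0 v0 (BGM.tl m g) := by
  obtain ⟨a, b, ha, hab, hk⟩ := curv_bounds hX hm
  obtain ⟨p, n, hp, hn, hpn, hcent⟩ := (grpData hX hO hm ha fun z => (hk z).2).root g hg
  have hp1 : p ≠ 1 := by
    rintro rfl
    exact hg (by rw [← hpn, one_pow])
  obtain ⟨x0, v0, hA⟩ := axis_exists hX hO hm hp1
  have hA2 := axis_pow hX hO hm hA (Nat.one_le_iff_ne_zero.2 hn.ne')
  rw [hpn] at hA2
  have htl := axis_tl hX hO hm hA2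
  rw [← htl] at hA2
  refine ⟨p, n, x0, v0, hn, hpn, hp, ⟨hA2, hA, fun h => ?_⟩, trg_eq hX hO hm hA2⟩
  rw [Subgroup.mem_zpowers_iff]
  constructor
  · intro hh
    obtain ⟨j, hj⟩ := (hcent h).1 hh.symm
    exact ⟨j, hj.symm⟩
  · rintro ⟨j, hj⟩
    exact ((hcent h).2 ⟨j, hj.symm⟩).symm

end GD
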