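import Pool.Agent.LibTR29.T8
import Pool.Agent.LibGD33.G7
import Pool.Agent.LibGH18.Main

/-! Assembly for one metric: the trace formula in the abstract form. -/

open MeasureTheory Set Filter Topology
open scoped ContDiff

namespace GD

open BGS BR

theorem gg_osc (b : ℝ → ℂ) (τ t : ℝ) : GWin.gg b τ t = osc b τ t := by
  unfold GWin.gg osc
  rw [mul_comm]
  congr 3
  push_cast
  ring

theorem hh_osc (b : ℝ → ℂ) (τ y : ℝ) : GWin.hh b τ y = BR.hh (osc b τ) y := by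
  unfold GWin.hh BR.hh
  simp only [gg_osc]

variable {Γ : Type} [Group Γ] [MulAction Γ Pl] {D : Set Pl}

/-- The data of the closed geodesics, for all classes. -/
theorem cd_exists (hX : Surface Γ D) (hO : Ori Γ) {m : Pl → Co} (hm : HM Γ m) :
    ∃ (g0 : ConjClasses Γ → Γ) (x0 v0 : ConjClasses Γ → Pl),
      CD m (fun c => Quotient.out c) g0 x0 v0 (fun c => BGM.tl m (Quotient.out c : Γ))
        (fun c => BGM.tl m (g0 c)) ∧
      ∀ c : ConjClasses Γ, c ≠ 1 → GH.ellp (BGM.tl m) (Quotient.out c : Γ) = BGM.tl m (g0 c) ∧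
        trg m (Quotient.out c : Γ) = trM m (x0 c) (v0 c) (BGM.tl m (Quotient.out c : Γ)) := by
  classical
  obtain ⟨a, b, ha, hab, hk⟩ := curv_bounds hX hm
  have hG := grpData hX hO hm ha fun z => (hk z).2
  have hout : ∀ c : ConjClasses Γ, ConjClasses.mk (Quotient.out c : Γ) = c :=
    fun c => Quotient.out_eq c
  have hne : ∀ c : ConjClasses Γ, c ≠ 1 → (Quotient.out c : Γ) ≠ 1 := by
    intro c hc h1
    apply hc
    rw [← hout c, h1, ConjClasses.one_eq_mk_one]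
  have key : ∀ c : ConjClasses Γ, ∃ q : Γ × (Pl × Pl), c ≠ 1 →
      Cls m (Quotient.out c : Γ) q.1 q.2.1 q.2.2 (BGM.tl m (Quotient.out c : Γ)) (BGM.tl m q.1) ∧
      GH.ellp (BGM.tl m) (Quotient.out c : Γ) = BGM.tl m q.1 ∧
      trg m (Quotient.out c : Γ) = trM m q.2.1 q.2.2 (BGM.tl m (Quotient.out c : Γ)) := by
    intro c
    by_cases hc : c = 1
    · exact ⟨(1, (0, 0)), fun h => absurd hc h⟩
    · obtain ⟨p, n, x, v, hn, hpn, hp, hcl, htr⟩ := cls_of hX hO hm (hne c hc)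
      refine ⟨(p, (x, v)), fun _ => ⟨hcl, ?_, htr⟩⟩
      have h := GH.ellp_pow hG hp hn
      rw [hpn] at h
      exact h
  choose q hq using key
  exact ⟨fun c => (q c).1, fun c => (q c).2.1, fun c => (q c).2.2,
    ⟨hout, fun c hc => (hq c hc).1⟩, fun c hc => (hq c hc).2⟩

/-- The trace formula in the abstract form. -/
theorem trace_geo (hX : Surface Γ D) (hO : Ori Γ) (m : Mt Γ D) {a : ℝ} (ha : 0 < a)
    (hk : ∀ z, curv m.1.1 z ≤ -a ^ 2) :
    GWin.Trace (GH.geo (BGM.tl m.1.1) (trg m.1.1) (Γ := Γ)) (FG33.lam m) := by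
  have hm : HM Γ m.1.1 := hm_of_Mt m
  have hG := grpData hX hO hm ha hk
  obtain ⟨C, -, hC⟩ := TR.trace_formula hX hO m
  obtain ⟨g0, x0, v0, hcd, hq⟩ := cd_exists hX hO hm
  refine GH.trace_of hG ⟨max C 1, by positivity, fun b ρ B τ hb hc hρ hs hτ hB => ?_⟩
  have hamp : Amp b ρ B := ⟨hb, hc, hs, hB⟩
  have h1 := hC _ g0 x0 v0 _ _ hcd b ρ B τ hρ hamp hτ
  have hB0 : 0 ≤ B := (norm_nonneg _).trans (hB 0 (by norm_num) 0)
  have e1 : ∑ᶠ c ∈ {c : ConjClasses Γ | c ≠ ConjClasses.mk 1},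
      GWin.gg b τ (GH.cf (BGM.tl m.1.1) c) *
        (GH.cf (GH.ellp (BGM.tl m.1.1)) c / √(GH.cf (trg m.1.1) c - 2)) =
      ∑ᶠ c ∈ {c : ConjClasses Γ | c ≠ 1}, BGM.tl m.1.1 (g0 c) *
        osc b τ (BGM.tl m.1.1 (Quotient.out c : Γ)) /
          √(trM m.1.1 (x0 c) (v0 c) (BGM.tl m.1.1 (Quotient.out c : Γ)) - 2) := by
    rw [← ConjClasses.one_eq_mk_one]
    refine finsum_mem_congr rfl fun c hc => ?_
    obtain ⟨h2, h3⟩ := hq c hc
    unfold GH.cf
    rw [gg_osc, h2, h3]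
    ring
  rw [e1]
  simp only [hh_osc]
  refine h1.trans ?_
  have hτ0 : (0 : ℝ) < τ := by linarith
  have e2 : τ ^ (-(1 / 2) : ℝ) = 1 / √τ := by
    rw [Real.rpow_neg hτ0.le, Real.sqrt_eq_rpow]
    exact (one_div _).symm
  rw [e2]
  have h4 : C * Real.exp (C * ρ) ≤ max C 1 * Real.exp (max C 1 * ρ) := by
    have h5 : C ≤ max C 1 := le_max_left _ _
    have h6 : Real.exp (C * ρ) ≤ Real.exp (max C 1 * ρ) :=
      Real.exp_le_exp.2 (mul_le_mul_of_nonneg_right h5 hρ)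
    have h7 : 0 < Real.exp (C * ρ) := Real.exp_pos _
    have h8 : (0 : ℝ) < max C 1 := lt_max_of_lt_right one_pos
    calc C * Real.exp (C * ρ) ≤ max C 1 * Real.exp (C * ρ) :=
          mul_le_mul_of_nonneg_right h5 h7.le
      _ ≤ _ := mul_le_mul_of_nonneg_left h6 h8.le
  have h9 : 0 ≤ B / √τ := by positivity
  calc C * Real.exp (C * ρ) * B / √τ = C * Real.exp (C * ρ) * (B / √τ) := by ring
    _ ≤ max C 1 * Real.exp (max C 1 * ρ) * (B / √τ) := mul_le_mul_of_nonneg_right h4 h9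
    _ = _ := by ring

end GD
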