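import Pool.Agent.LibGD33.Asm1
import Pool.Agent.LibBGM20.SG
import Pool.Agent.LibBGM20.H1B
import Pool.Agent.LibBRS.A6
import Pool.Agent.LibBRS.B1

/-! Assembly: one metric, and almost every metric. -/

open MeasureTheory Set Filter Topology
open scoped ContDiff unitInterval

namespace GD

open BGS BR

variable {Γ : Type} [Group Γ] [MulAction Γ Pl] {D : Set Pl}

/-- The growth of the levels. -/
theorem lev (hX : Surface Γ D) (m : Mt Γ D) : GWin.Lev (FG33.lam m) := by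
  refine ⟨fun n => Real.sqrt_nonneg _, ?_⟩
  obtain ⟨c, hc, hg⟩ := BRS.growth hX m
  have hpi := Real.pi_pos
  refine ⟨√(4 * Real.pi * c), by positivity, fun n => ?_⟩
  unfold FG33.lam
  rw [← Real.sqrt_mul (by positivity)]
  have h1 : √(4 * Real.pi * c * n) ≤ √(4 * Real.pi * x m n) := by
    refine Real.sqrt_le_sqrt ?_
    have := hg n
    calc 4 * Real.pi * c * n = 4 * Real.pi * (c * n) := by ring
      _ ≤ _ := by gcongr
  linarith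

/-- One metric. -/
theorem one_metric (hX : Surface Γ D) (hO : Ori Γ) (m : Mt Γ D)
    (hSR : GWin.SumRule (GH.geo (BGM.tl m.1.1) (trg m.1.1) (Γ := Γ)))
    {Lam : ℝ → ℝ} (hLam : Tendsto (fun T => Lam T / Real.log T) atTop (𝓝 0))
    (hS : BGM.SepG Γ m.1.1 Lam) {L : ℝ → ℝ} (hL : Tendsto L atTop atTop)
    (hL' : ∀ᶠ T in atTop, L T ≤ Lam T) : FG33.GOEWindows m L := by
  have hm : HM Γ m.1.1 := hm_of_Mt m
  obtain ⟨a, b, ha, hab, hk⟩ := curv_bounds hX hm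
  have hG := grpData hX hO hm ha fun z => (hk z).2
  exact GWin.goeWindows (GH.ok_geo hG) hSR (lev hX m) (trace_geo hX hO m ha fun z => (hk z).2)
    hLam (GH.sep_of hS) hL hL'

/-- Almost every metric. -/
theorem ae_metric (hX : Surface Γ D) (hO : Ori Γ)
    (hSR : ∀ m : Mt Γ D, GWin.SumRule (GH.geo (BGM.tl m.1.1) (trg m.1.1) (Γ := Γ)))
    (Lam : ℝ → ℝ) (hLam : Tendsto (fun T => Lam T / Real.log T) atTop (𝓝 0)) :
    ∃ φ : (ℕ × (ℤ × ℤ) → I) → Pl → ℝ,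
      (∀ ξ, φ ξ ∈ Test Γ) ∧ (∀ z, Measurable fun ξ => φ ξ z) ∧
      (∀ m : Mt Γ D, ∀ U ∈ 𝓝 m, ∃ s₀ : ℝ, 0 < s₀ ∧ ∀ s : ℝ, 0 < s → s ≤ s₀ → ∀ ξ,
        ∃ m' ∈ U, ∃ q : ℝ, 0 < q ∧ ∀ z, m'.1.1 z = (q * Real.exp (s * φ ξ z)) • m.1.1 z) ∧
      ∀ m : Mt Γ D, ∀ ψ ∈ Test Γ, ∀ s : ℝ, 0 < s → s ≤ 1 →
        ∀ᵐ ξ ∂(Measure.infinitePi fun _ : ℕ × (ℤ × ℤ) => (volume : Measure I)), ∀ m' : Mt Γ D,
          (∃ q : ℝ, 0 < q ∧ ∀ z, m'.1.1 z = (q * Real.exp (ψ z + s * φ ξ z)) • m.1.1 z) →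
          ∀ L : ℝ → ℝ, Tendsto L atTop atTop → (∀ᶠ T in atTop, L T ≤ Lam T) →
            FG33.GOEWindows m' L := by
  obtain ⟨φ, h1, h2, h3, h4⟩ := BGM.sep_ae hX (BGM.h1_of hX) hLam
  refine ⟨φ, h1, h2, h3, fun m ψ hψ s hs hs1 => ?_⟩
  filter_upwards [h4 m ψ hψ s hs hs1] with ξ hξ
  intro m' hm' L hL hL'
  exact one_metric hX hO m' (hSR m') hLam (hξ m' hm') hL hL'

end GD
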