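import Pool.Agent.LibGD33.Defs

/-! Row G1: the two notions of axis. `BR.Axis m g x0 v0 l`: `gfl m l (x0, v0) = (g • x0, Rg m g x0 v0)`;
`BGM.IsAx m g c`: `c` is a line and `c (t + tl m g) = g • c t`.
PLAN. `gd_had` gives `h : BGM.Had m k (Ex m) (Vx m) (JB m)` (so `BGM.ds m x y = BGM.eu (Vx m x y)`; `BGM.eu` and
`BR.eu` are the same by `rfl`). `axis_tr`: `Ex_ray` (`Ex m x0 (t • v0) = (gfl m t (x0, v0)).1`), `gfl_deck` at `(x0, v0)`,
`hA.per` and `gfl_add`: `g • (gfl m t (x0, v0)).1 = (gfl m t (gfl m l (x0, v0))).1 = (gfl m (t + l) (x0, v0)).1`.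
`axis_tl`: with `c t = Ex m x0 (t • v0)`, a line (`BGM.line_E`): `tl m g ≤ ds (c 0) (g • c 0) = l` (`BGM.tl_le`);
conversely for every `z` and natural `n ≥ 1`: `n * ds z (g • z) ≥ ds z (g ^ n • z) ≥ ds (c 0) (c (n l)) - 2 ds z (c 0) =
n l - 2 ds z (c 0)` (`BGM.ds_tri`, `BGM.B1_ds`, induction), so `ds z (g • z) ≥ l`; `le_csInf`.
`isAx_axis`: `BGM.A6_line`: `c t = Ex m (c 0) (t • v)` with `eu v = 1`, so `Vx m (c 0) (c 1) = v` (`Vx_Ex`). With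
`l = tl m g > 0`, `(y, w) = gfl m l (c 0, v)`: `y = c l = g • c 0` (`Ex_ray`), and `Ex_add`: `Ex m (c 0) ((l + 1) • v) = Ex m y w`;
also `= c (1 + l) = g • c 1 = g • Ex m (c 0) v = Ex m (g • c 0) (Rg m g (c 0) v)` (`Ex_deck`), so `w = Rg m g (c 0) v` (`Vx_Ex`).
`axis_exists`: `BGM.B2_min'`, `BGM.B2_axis`, `BGM.tl_pos`. `axis_unique`: `axis_isAx` for both; `BGM.B3_unique` (`x1 = Ex m x1 0` has minimal
displacement by `BGM.B2_pts`): `x1 = c s`. The lines `t ↦ c (s + t)` and `c' t = Ex m x1 (t • v1)` agree at `0` and at `l`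
(`c' l = g • x1 = g • c s = c (s + l)`), so they are equal (`BGM.A6_unique`, `BGM.IsLine.shift`), and `Ex_add` with
`t = 1`: `Ex m x1 v1 = Ex m (c s) (gfl m s (x0, v0)).2`: `Vx_Ex`. -/

open MeasureTheory Set Filter Topology
open scoped ContDiff

namespace GD

open BGS BR

variable {Γ : Type} [Group Γ] [MulAction Γ Pl] {D : Set Pl} {m : Pl → Co} {g : Γ}
  {x0 v0 x1 v1 : Pl} {l l' : ℝ}

theorem axis_tr (hX : Surface Γ D) (hO : Ori Γ) (hm : HM Γ m) (hA : Axis m g x0 v0 l) (t : ℝ) :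
    Ex m x0 ((t + l) • v0) = g • Ex m x0 (t • v0) := by
  rw [Ex_ray hX hm, Ex_ray hX hm, gfl_add hX hm, hA.per, gfl_deck hX hO hm]

private theorem G1_line (hX : Surface Γ D) (hm : HM Γ m) (hA : Axis m g x0 v0 l) :
    BGM.IsLine m fun t : ℝ => Ex m x0 (t • v0) := by
  obtain ⟨k, h⟩ := gd_had hX hm
  exact BGM.line_E h hA.unit

private theorem G1_iter (hX : Surface Γ D) (hO : Ori Γ) (hm : HM Γ m) (hA : Axis m g x0 v0 l)
    (n : ℕ) : Ex m x0 (((n : ℝ) * l) • v0) = g ^ n • Ex m x0 ((0 : ℝ) • v0) := by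
  induction n with
  | zero => simp
  | succ n ih =>
    rw [Nat.cast_succ, show ((n : ℝ) + 1) * l = n * l + l by ring, axis_tr hX hO hm hA, ih,
      pow_succ', mul_smul]

private theorem G1_pow (hX : Surface Γ D) (hm : HM Γ m) (g : Γ) (z : Pl) (n : ℕ) :
    BGM.ds m z (g ^ n • z) ≤ n * BGM.ds m z (g • z) := by
  induction n with
  | zero =>
    obtain ⟨k, h⟩ := gd_had hX hm
    rw [pow_zero, one_smul, (BGM.ds_eq_zero h).2 rfl, Nat.cast_zero, zero_mul]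
  | succ n ih =>
    have h1 := BGM.ds_tri (gd_rp hm) z (g ^ n • z) (g ^ (n + 1) • z)
    have h2 : BGM.ds m (g ^ n • z) (g ^ (n + 1) • z) = BGM.ds m z (g • z) := by
      rw [pow_succ, mul_smul, BGM.B1_ds hX (gd_iv hm)]
    rw [h2] at h1
    push_cast
    linarith

theorem axis_tl (hX : Surface Γ D) (hO : Ori Γ) (hm : HM Γ m) (hA : Axis m g x0 v0 l) :
    BGM.tl m g = l := by
  have hL := G1_line hX hm hA
  apply le_antisymm
  · refine (BGM.tl_le m g (Ex m x0 ((0 : ℝ) • v0))).trans (le_of_eq ?_)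
    rw [← axis_tr hX hO hm hA, hL 0 (0 + l)]
    rw [show (0 : ℝ) - (0 + l) = -l by ring, abs_neg, abs_of_pos hA.pos]
  · unfold BGM.tl
    refine le_csInf ⟨_, ⟨x0, rfl⟩⟩ ?_
    rintro _ ⟨z, rfl⟩
    show l ≤ BGM.ds m z (g • z)
    by_contra hc
    rw [not_le] at hc
    obtain ⟨n, hn⟩ := exists_nat_gt
      ((BGM.ds m (Ex m x0 ((0 : ℝ) • v0)) z + BGM.ds m z (Ex m x0 ((0 : ℝ) • v0))) /
        (l - BGM.ds m z (g • z)))
    rw [div_lt_iff₀ (by linarith)] at hn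
    have h1 := BGM.ds_tri (gd_rp hm) (Ex m x0 ((0 : ℝ) • v0)) z
      (g ^ n • Ex m x0 ((0 : ℝ) • v0))
    have h2 := BGM.ds_tri (gd_rp hm) z (g ^ n • z) (g ^ n • Ex m x0 ((0 : ℝ) • v0))
    rw [BGM.B1_ds hX (gd_iv hm)] at h2
    have h3 := G1_pow hX hm g z n
    have h4 : BGM.ds m (Ex m x0 ((0 : ℝ) • v0)) (g ^ n • Ex m x0 ((0 : ℝ) • v0)) = n * l := by
      rw [← G1_iter hX hO hm hA n, hL 0 (n * l), zero_sub, abs_neg,
        abs_of_nonneg (mul_nonneg n.cast_nonneg hA.pos.le)]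
    rw [h4] at h1
    nlinarith

theorem axis_isAx (hX : Surface Γ D) (hO : Ori Γ) (hm : HM Γ m) (hA : Axis m g x0 v0 l) :
    BGM.IsAx m g fun t : ℝ => Ex m x0 (t • v0) := by
  refine ⟨G1_line hX hm hA, fun t => ?_⟩
  show Ex m x0 ((t + BGM.tl m g) • v0) = g • Ex m x0 (t • v0)
  rw [axis_tl hX hO hm hA]
  exact axis_tr hX hO hm hA t

private theorem G1_inj (hX : Surface Γ D) (hm : HM Γ m) {x v w : Pl}
    (h : Ex m x v = Ex m x w) : v = w := by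
  have h1 := Vx_Ex hX hm x v
  rw [h, Vx_Ex hX hm] at h1
  exact h1.symm

theorem isAx_axis (hX : Surface Γ D) (hO : Ori Γ) (hm : HM Γ m) {c : ℝ → Pl}
    (hg : 0 < BGM.tl m g) (hc : BGM.IsAx m g c) :
    Axis m g (c 0) (Vx m (c 0) (c 1)) (BGM.tl m g) := by
  obtain ⟨k, h⟩ := gd_had hX hm
  obtain ⟨v, hv, h1⟩ := BGM.A6_line h hc.1
  have h2 : Vx m (c 0) (c 1) = v := by
    have h3 := h1 1
    rw [one_smul] at h3
    rw [h3, Vx_Ex hX hm]
  rw [h2]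
  refine ⟨hv, hg, ?_⟩
  have h3 : (gfl m (BGM.tl m g) (c 0, v)).1 = g • c 0 := by
    rw [← Ex_ray hX hm, ← h1, ← hc.2 0, zero_add]
  have h4 : (gfl m (BGM.tl m g) (c 0, v)).2 = Rg m g (c 0) v := by
    apply G1_inj hX hm (x := g • c 0)
    rw [Ex_deck hX hO hm]
    have h5 := Ex_add hX hm (BGM.tl m g) 1 (c 0) v
    have h6 : Ex m (c 0) (BGM.tl m g • v) = g • c 0 := by
      rw [Ex_ray hX hm]
      exact h3
    rw [← h1 (BGM.tl m g + 1), h6, one_smul] at h5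
    rw [← h5, add_comm, hc.2 1, h1 1, one_smul]
  exact Prod.ext h3 h4

theorem axis_exists (hX : Surface Γ D) (hO : Ori Γ) (hm : HM Γ m) (hg : g ≠ 1) :
    ∃ x0 v0 : Pl, Axis m g x0 v0 (BGM.tl m g) := by
  obtain ⟨k, h⟩ := gd_had hX hm
  obtain ⟨z, hz⟩ := BGM.B2_min' hX (gd_iv hm) h g
  obtain ⟨c, hc, -⟩ := BGM.B2_axis hX (gd_iv hm) h hg hz
  exact ⟨_, _, isAx_axis hX hO hm (BGM.tl_pos hX (gd_iv hm) h hg) hc⟩

theorem axis_unique (hX : Surface Γ D) (hO : Ori Γ) (hm : HM Γ m) (hA : Axis m g x0 v0 l)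
    (hA' : Axis m g x1 v1 l') : ∃ s : ℝ, gfl m s (x0, v0) = (x1, v1) := by
  obtain ⟨k, h⟩ := gd_had hX hm
  have hc := axis_isAx hX hO hm hA
  have hc' := axis_isAx hX hO hm hA'
  have hl := axis_tl hX hO hm hA
  have hg : g ≠ 1 := by
    rintro rfl
    have h1 := BGM.tl_le m (1 : Γ) x0
    rw [one_smul, (BGM.ds_eq_zero h).2 rfl, hl] at h1
    exact absurd hA.pos (not_lt.2 h1)
  obtain ⟨s, hs⟩ := BGM.B3_unique hX (gd_iv hm) h hg hc (BGM.B2_pts hc' 0)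
  have hs' : x1 = Ex m x0 (s • v0) := by
    have h1 : Ex m x1 ((0 : ℝ) • v1) = Ex m x0 (s • v0) := hs
    rwa [zero_smul, Ex_zero hX hm] at h1
  have h0 : (fun t : ℝ => Ex m x0 ((s + t) • v0)) = fun t : ℝ => Ex m x1 (t • v1) := by
    refine BGM.A6_unique h (a := 0) (b := BGM.tl m g)
      (hc.1.shift s) hc'.1 (by rw [hl]; exact hA.pos.ne) ?_ ?_
    · show Ex m x0 ((s + 0) • v0) = Ex m x1 ((0 : ℝ) • v1)
      rw [add_zero, zero_smul, Ex_zero hX hm, hs']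
    · show Ex m x0 ((s + BGM.tl m g) • v0) = Ex m x1 (BGM.tl m g • v1)
      have h1 := hc.2 s
      have h2 := hc'.2 0
      have h3 : Ex m x0 ((s + BGM.tl m g) • v0) = g • Ex m x0 (s • v0) := h1
      have h4 : Ex m x1 ((0 + BGM.tl m g) • v1) = g • Ex m x1 ((0 : ℝ) • v1) := h2
      rw [zero_add, zero_smul, Ex_zero hX hm] at h4
      rw [h3, h4, ← hs']
  have h1 : Ex m x0 ((s + 1) • v0) = Ex m x1 ((1 : ℝ) • v1) := congrFun h0 1
  rw [Ex_add hX hm, ← hs', one_smul, one_smul] at h1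
  refine ⟨s, Prod.ext ?_ (G1_inj hX hm h1)⟩
  rw [← Ex_ray hX hm]
  exact hs'.symm

end GD
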