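import Pool.Agent.LibGD33.Defs

/-! Row G2: the linearised flow is a cocycle.
PLAN. `NN_zero`: `J_zero`. `NN_det`: `wronski` (`Matrix.det_fin_two`). `NN_tr`: `Matrix.trace_fin_two`.
`NN_add`: differentiate `gfl m (s + t) = gfl m s ∘ gfl m t` (`gfl_add`, chain rule; `gfl m s` is differentiable by
`gfl_smooth`): `dgf m (s + t) p ξ = dgf m s (gfl m t p) (dgf m t p ξ)`. Take `p = (x, v)`, `ξ = lift m x v 0 q b` and use
`dgf_split` three times (`gfl_eu` for the unit length of `(gfl m t (x, v)).2`): two vectors `lift m y w 0 q' b'` are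
equal, so their components are equal (`lift_spec`: `cq` and `cb`). With `(q, b) = (1, 0)` and `(0, 1)` these are the four
entries (`Matrix.mul_fin_two` or `Matrix.mul_apply`, `Fin.sum_univ_two`; `ext i j; fin_cases i <;> fin_cases j`).
`NN_deck`: `JA_deck`, `JB_deck` for all `t`, so the derivatives agree too (`funext`). -/

open MeasureTheory Set Filter Topology
open scoped ContDiff

namespace GD

open BGS BR

variable {Γ : Type} [Group Γ] [MulAction Γ Pl] {D : Set Pl} {m : Pl → Co}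

private theorem G2_diff (hX : Surface Γ D) (hm : HM Γ m) (t : ℝ) : Differentiable ℝ (gfl m t) := by
  have h1 : ContDiff ℝ ∞ (gfl m t) :=
    (gfl_smooth hX hm).comp (contDiff_const.prodMk contDiff_id)
  exact h1.differentiable (by simp)

private theorem G2_chain (hX : Surface Γ D) (hm : HM Γ m) (s t : ℝ) (p ξ : Pl × Pl) :
    dgf m (s + t) p ξ = dgf m s (gfl m t p) (dgf m t p ξ) := by
  have h0 : gfl m (s + t) = fun q => gfl m s (gfl m t q) := funext fun q => gfl_add hX hm s t q
  have h1 : HasFDerivAt (gfl m t) (fderiv ℝ (gfl m t) p) p :=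
    (G2_diff hX hm t p).hasFDerivAt
  have h2 : HasFDerivAt (gfl m s) (fderiv ℝ (gfl m s) (gfl m t p)) (gfl m t p) :=
    (G2_diff hX hm s _).hasFDerivAt
  have h3 := (h2.comp p h1).fderiv
  unfold dgf
  rw [h0]
  have h4 : fderiv ℝ (fun q => gfl m s (gfl m t q)) p =
      (fderiv ℝ (gfl m s) (gfl m t p)).comp (fderiv ℝ (gfl m t) p) := h3
  rw [h4]
  rfl

private theorem G2_main (hX : Surface Γ D) (hm : HM Γ m) {x v : Pl} (hv : eu v = 1) (s t q b : ℝ) :
    q * JA m x v (s + t) + b * JB m x v (s + t) =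
      (q * JA m x v t + b * JB m x v t) * JA m (gfl m t (x, v)).1 (gfl m t (x, v)).2 s +
      (q * deriv (JA m x v) t + b * deriv (JB m x v) t) *
        JB m (gfl m t (x, v)).1 (gfl m t (x, v)).2 s ∧
    q * deriv (JA m x v) (s + t) + b * deriv (JB m x v) (s + t) =
      (q * JA m x v t + b * JB m x v t) *
        deriv (JA m (gfl m t (x, v)).1 (gfl m t (x, v)).2) s +
      (q * deriv (JA m x v) t + b * deriv (JB m x v) t) *
        deriv (JB m (gfl m t (x, v)).1 (gfl m t (x, v)).2) s := by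
  have hw : eu (gfl m t (x, v)).2 = 1 := by rw [gfl_eu hX hm]; exact hv
  have hz : eu (gfl m (s + t) (x, v)).2 = 1 := by rw [gfl_eu hX hm]; exact hv
  have h1 := G2_chain hX hm s t (x, v) (lift m x v 0 q b)
  rw [dgf_split hX hm hv (s + t), dgf_split hX hm hv t] at h1
  have h2 := dgf_split hX hm hw (x := (gfl m t (x, v)).1) s 0
    (q * JA m x v t + b * JB m x v t) (q * deriv (JA m x v) t + b * deriv (JB m x v) t)
  have e0 : ((gfl m t (x, v)).1, (gfl m t (x, v)).2) = gfl m t (x, v) := rfl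
  rw [e0] at h2
  rw [h2, ← gfl_add hX hm] at h1
  have hp := hm.pos
  have h3 := lift_spec hp hz (x := (gfl m (s + t) (x, v)).1) 0
    (q * JA m x v (s + t) + b * JB m x v (s + t))
    (q * deriv (JA m x v) (s + t) + b * deriv (JB m x v) (s + t))
  rw [h1] at h3
  have h4 := lift_spec hp hz (x := (gfl m (s + t) (x, v)).1) 0
    ((q * JA m x v t + b * JB m x v t) * JA m (gfl m t (x, v)).1 (gfl m t (x, v)).2 s +
      (q * deriv (JA m x v) t + b * deriv (JB m x v) t) *
        JB m (gfl m t (x, v)).1 (gfl m t (x, v)).2 s)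
    ((q * JA m x v t + b * JB m x v t) *
        deriv (JA m (gfl m t (x, v)).1 (gfl m t (x, v)).2) s +
      (q * deriv (JA m x v) t + b * deriv (JB m x v) t) *
        deriv (JB m (gfl m t (x, v)).1 (gfl m t (x, v)).2) s)
  exact ⟨h3.2.1.symm.trans h4.2.1, h3.2.2.1.symm.trans h4.2.2.1⟩

theorem NN_zero (hX : Surface Γ D) (hm : HM Γ m) {x v : Pl} (hv : eu v = 1) : NN m x v 0 = 1 := by
  obtain ⟨h1, h2, h3, h4⟩ := J_zero hX hm (x := x) hv
  unfold NN
  rw [h1, h2, h3, h4, Matrix.one_fin_two]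

theorem NN_det (hX : Surface Γ D) (hm : HM Γ m) {x v : Pl} (hv : eu v = 1) (t : ℝ) :
    (NN m x v t).det = 1 := by
  have h := wronski hX hm (x := x) hv t
  unfold NN
  rw [Matrix.det_fin_two_of]
  linear_combination h

theorem NN_tr (m : Pl → Co) (x v : Pl) (t : ℝ) : (NN m x v t).trace = trM m x v t := by
  unfold NN trM
  rw [Matrix.trace_fin_two_of]

theorem NN_add (hX : Surface Γ D) (hm : HM Γ m) {x v : Pl} (hv : eu v = 1) (s t : ℝ) :
    NN m x v (s + t) = NN m (gfl m t (x, v)).1 (gfl m t (x, v)).2 s * NN m x v t := by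
  obtain ⟨h1, h2⟩ := G2_main hX hm (x := x) hv s t 1 0
  obtain ⟨h3, h4⟩ := G2_main hX hm (x := x) hv s t 0 1
  simp only [one_mul, zero_mul, add_zero, zero_add] at h1 h2 h3 h4
  unfold NN
  rw [Matrix.mul_fin_two, h1, h2, h3, h4]
  congr 1
  ext i j
  fin_cases i <;> fin_cases j <;> simp [mul_comm]

theorem NN_deck (hX : Surface Γ D) (hO : Ori Γ) (hm : HM Γ m) (γ : Γ) {x v : Pl}
    (hv : eu v = 1) (t : ℝ) : NN m (γ • x) (Rg m γ x v) t = NN m x v t := by
  have h1 : JA m (γ • x) (Rg m γ x v) = JA m x v := funext fun t => JA_deck hX hO hm γ hv t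
  have h2 : JB m (γ • x) (Rg m γ x v) = JB m x v := funext fun t => JB_deck hX hO hm γ hv t
  unfold NN
  rw [h1, h2]

end GD
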