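import Pool.Agent.LibGD33.G1
import Pool.Agent.LibGD33.G2

/-! Row G3: the trace is well defined, a class function, invariant under inversion; powers. Uses G1, G2.
PLAN. Let `N s = NN m x0 v0 s`, `(c, w) = gfl m s (x0, v0)`. `NN_add` twice: `N (l + s) = NN m c w l * N s` and
`N (s + l) = NN m (g • x0) (Rg m g x0 v0) s * N l = N s * N l` (`hA.per`, `NN_deck`). So `NN m c w l * N s = N s * N l`, and
`det (N s) = 1`: `NN m c w l = N s * N l * (N s)⁻¹`, `Matrix.trace_mul_comm`: `trM_along`. `NN_pow`: induction with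
`NN m x0 v0 (t + l) = NN m x0 v0 t * NN m x0 v0 l` (the same computation). `axis_pow`: induction: if
`gfl m (k l) (x0, v0) = (g ^ k • x0, Rg m (g ^ k) x0 v0)` then `gfl m ((k + 1) l) (x0, v0) = gfl m (k l) (g • x0, Rg m g x0 v0) =
(g • g ^ k • x0, Rg m g (g ^ k • x0) (Rg m (g ^ k) x0 v0))` (`gfl_add`, `gfl_deck`, `Rg_mul`).
`trM_rev`: `J_rev` at `t = l` for `(x0, v0)`: `(gfl m l (x0, v0)) = (g • x0, Rg m g x0 v0)`, and
`-(Rg m g x0 v0) = Rg m g x0 (-v0)` (`Rg_smul` with `r = -1`), so by `JA_deck`: `JA m x0 (-v0) l = deriv (JB m x0 v0) l`.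
The same for `g⁻¹` and `-v0` (`Axis_inv`; `- -v0 = v0`): `JA m x0 v0 l = deriv (JB m x0 (-v0)) l`. Add.
`trg_eq`: unfold, `dif_pos`; the chosen `(x1, v1, l1)` is an axis of `g`: `l1 = l` (`axis_tl` twice), `axis_unique`, `trM_along`.
`trg_one`: `Axis_ne`: there is no axis of `1`: `dif_neg`. `trg_conj`, `trg_inv`: if `g = 1` both are `2` (`trg_one`), otherwise
`axis_exists`, `Axis_conj`, `trg_eq`, `NN_deck` (`NN_tr`); `Axis_inv`, `trM_rev`. -/

open MeasureTheory Set Filter Topology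
open scoped ContDiff

namespace GD

open BGS BR

variable {Γ : Type} [Group Γ] [MulAction Γ Pl] {D : Set Pl} {m : Pl → Co} {g : Γ}
  {x0 v0 : Pl} {l : ℝ}

private theorem G3_shift (hX : Surface Γ D) (hO : Ori Γ) (hm : HM Γ m)
    (hA : Axis m g x0 v0 l) (s : ℝ) :
    NN m x0 v0 (s + l) = NN m x0 v0 s * NN m x0 v0 l := by
  rw [NN_add hX hm hA.unit s l, hA.per, NN_deck hX hO hm g hA.unit s]

private theorem G3_eu {v : Pl} (hv : eu v = 1) : eu (-v) = 1 := by
  rw [← hv]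
  simp [eu]

private theorem G3_half (hX : Surface Γ D) (hO : Ori Γ) (hm : HM Γ m) (hA : Axis m g x0 v0 l) :
    JA m x0 (-v0) l = deriv (JB m x0 v0) l := by
  have h1 := (J_rev hX hm (x := x0) hA.unit l).2
  rw [hA.per] at h1
  have h2 : -(Rg m g x0 v0) = Rg m g x0 (-v0) := by
    have h3 := Rg_smul hX hm g x0 v0 (-1)
    rw [neg_one_smul, neg_one_smul] at h3
    exact h3.symm
  have h4 : JA m (g • x0) (-(Rg m g x0 v0)) l = deriv (JB m x0 v0) l := h1
  rw [h2, JA_deck hX hO hm g (G3_eu hA.unit) l] at h4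
  exact h4

theorem trM_along (hX : Surface Γ D) (hO : Ori Γ) (hm : HM Γ m) (hA : Axis m g x0 v0 l) (s : ℝ) :
    trM m (gfl m s (x0, v0)).1 (gfl m s (x0, v0)).2 l = trM m x0 v0 l := by
  have h1 := NN_add hX hm (x := x0) hA.unit l s
  rw [add_comm l s, G3_shift hX hO hm hA s] at h1
  have hdet : IsUnit (NN m x0 v0 s).det := by
    rw [NN_det hX hm hA.unit]
    exact isUnit_one
  have h2 : NN m (gfl m s (x0, v0)).1 (gfl m s (x0, v0)).2 l =
      NN m x0 v0 s * NN m x0 v0 l * (NN m x0 v0 s)⁻¹ := by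
    rw [h1, Matrix.mul_assoc, Matrix.mul_nonsing_inv _ hdet, Matrix.mul_one]
  rw [← NN_tr, ← NN_tr, h2, Matrix.mul_assoc, Matrix.trace_mul_comm, Matrix.mul_assoc,
    Matrix.nonsing_inv_mul _ hdet, Matrix.mul_one]

theorem NN_pow (hX : Surface Γ D) (hO : Ori Γ) (hm : HM Γ m) (hA : Axis m g x0 v0 l) (k : ℕ) :
    NN m x0 v0 (k * l) = NN m x0 v0 l ^ k := by
  induction k with
  | zero => rw [Nat.cast_zero, zero_mul, pow_zero, NN_zero hX hm hA.unit]
  | succ k ih =>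
    have h1 : ((k + 1 : ℕ) : ℝ) * l = k * l + l := by
      push_cast
      ring
    rw [h1, G3_shift hX hO hm hA, ih, pow_succ]

theorem axis_pow (hX : Surface Γ D) (hO : Ori Γ) (hm : HM Γ m) (hA : Axis m g x0 v0 l) {k : ℕ}
    (hk : 1 ≤ k) : Axis m (g ^ k) x0 v0 (k * l) := by
  refine ⟨hA.unit, mul_pos (by exact_mod_cast hk) hA.pos, ?_⟩
  induction k, hk using Nat.le_induction with
  | base => rw [Nat.cast_one, one_mul, pow_one, hA.per]
  | succ k hk ih =>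
    have h1 : ((k + 1 : ℕ) : ℝ) * l = k * l + l := by
      push_cast
      ring
    rw [h1, gfl_add hX hm, hA.per, gfl_deck hX hO hm, ih]
    show (g • g ^ k • x0, Rg m g (g ^ k • x0) (Rg m (g ^ k) x0 v0)) = _
    rw [← Rg_mul hX hm, ← mul_smul, ← pow_succ']

theorem trM_rev (hX : Surface Γ D) (hO : Ori Γ) (hm : HM Γ m) (hA : Axis m g x0 v0 l) :
    trM m x0 (-v0) l = trM m x0 v0 l := by
  have h1 := G3_half hX hO hm hA
  have h2 := G3_half hX hO hm (Axis_inv hX hO hm hA)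
  rw [neg_neg] at h2
  unfold trM
  rw [h1, h2, add_comm]

theorem trg_eq (hX : Surface Γ D) (hO : Ori Γ) (hm : HM Γ m) (hA : Axis m g x0 v0 l) :
    trg m g = trM m x0 v0 l := by
  have h : ∃ q : (Pl × Pl) × ℝ, Axis m g q.1.1 q.1.2 q.2 := ⟨((x0, v0), l), hA⟩
  have h1 : trg m g = trM m h.choose.1.1 h.choose.1.2 h.choose.2 := by
    unfold trg
    rw [dif_pos h]
  have h2 := h.choose_spec
  set q := h.choose with hq
  have h3 : q.2 = l := by rw [← axis_tl hX hO hm h2, ← axis_tl hX hO hm hA]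
  obtain ⟨s, hs⟩ := axis_unique hX hO hm hA h2
  have h4 := trM_along hX hO hm hA s
  rw [hs] at h4
  rw [h1, h3]
  exact h4

theorem trg_one (hX : Surface Γ D) (hO : Ori Γ) (hm : HM Γ m) : trg m (1 : Γ) = 2 := by
  have h : ¬ ∃ q : (Pl × Pl) × ℝ, Axis m (1 : Γ) q.1.1 q.1.2 q.2 := by
    rintro ⟨q, hq⟩
    exact (Axis_ne hX hO hm hq).1 rfl
  unfold trg
  rw [dif_neg h]

theorem trg_conj (hX : Surface Γ D) (hO : Ori Γ) (hm : HM Γ m) (g γ : Γ) :
    trg m (γ * g * γ⁻¹) = trg m g := by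
  rcases eq_or_ne g 1 with hg | hg
  · rw [hg, mul_one, mul_inv_cancel]
  · obtain ⟨x0, v0, hA⟩ := axis_exists hX hO hm hg
    rw [trg_eq hX hO hm hA, trg_eq hX hO hm (Axis_conj hX hO hm hA γ), ← NN_tr, ← NN_tr,
      NN_deck hX hO hm γ hA.unit]

theorem trg_inv (hX : Surface Γ D) (hO : Ori Γ) (hm : HM Γ m) (g : Γ) : trg m g⁻¹ = trg m g := by
  rcases eq_or_ne g 1 with hg | hg
  · rw [hg, inv_one]
  · obtain ⟨x0, v0, hA⟩ := axis_exists hX hO hm hg
    rw [trg_eq hX hO hm hA, trg_eq hX hO hm (Axis_inv hX hO hm hA), trM_rev hX hO hm hA]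

end GD
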