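import Pool.Agent.LibBR73.AN2
import Pool.Agent.LibBR73.AN3a
import Pool.Agent.LibBGM20.B4p
import Pool.Agent.LibBGM20.B5
import Pool.Agent.LibBGM20.H1B
import Pool.Agent.LibGH18.Defs

/-! The length and the trace of the closed geodesic of a deck transformation: definitions. -/

open MeasureTheory Set Filter Topology
open scoped ContDiff

namespace GD

open BGS BR

/-- The linearised geodesic flow in the frame of the geodesic of `(x, v)`. -/
noncomputable def NN (m : Pl → Co) (x v : Pl) (t : ℝ) : Matrix (Fin 2) (Fin 2) ℝ :=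
  !![JA m x v t, JB m x v t; deriv (JA m x v) t, deriv (JB m x v) t]

open Classical in
/-- The trace of the Poincaré map of the closed geodesic of `g`. -/
noncomputable def trg {Γ : Type} [Group Γ] [MulAction Γ Pl] (m : Pl → Co) (g : Γ) : ℝ :=
  if h : ∃ q : (Pl × Pl) × ℝ, Axis m g q.1.1 q.1.2 q.2 then
    trM m h.choose.1.1 h.choose.1.2 h.choose.2 else 2

variable {Γ : Type} [Group Γ] [MulAction Γ Pl] {D : Set Pl}

/-- The base of the Hadamard plane. -/
theorem gd_had (hX : Surface Γ D) {m : Pl → Co} (hm : HM Γ m) :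
    ∃ k : ℝ, BGM.Had m k (Ex m) (Vx m) (JB m) := by
  obtain ⟨a, b, ha, hab, h⟩ := curv_bounds hX hm
  exact ⟨b, BGM.had_of hX hm (ha.trans_le hab) fun z => (h z).1⟩

theorem gd_iv {m : Pl → Co} (hm : HM Γ m) : BGM.Iv Γ m := hm.inv

theorem gd_rp {m : Pl → Co} (hm : HM Γ m) : BGM.Rp m := ⟨hm.smooth, hm.pos⟩

end GD
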